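import Pool.Agent.H690R3.Lab.CwNamed

open Pool.Agent.H690R3.Lab Pool.Agent.H175R2

/-- Negative answer to Q1: for every constant `c` there is a `k` such that the class of all graphs
of clique-width at most `k` has no adjacency labelling scheme of size `(c + o(1)) log n`. -/
theorem Pool.Agent.Results.MP_974ce4_co.CliqueWidthNo.result :
    ∀ c : ℝ, ∃ k : ℕ, ¬ HasSchemeOfSize (fun _ G => CwLE G k) c := by
  intro c
  obtain ⟨m, hm⟩ := exists_nat_gt (4 * c)
  have hm' : 4 * c < ((m + 1 : ℕ) : ℝ) := hm.trans (by push_cast; linarith)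
  refine ⟨3 * ((m + 1) + (m + 1) + 1), fun h => ?_⟩
  have := const_bound h (m + 1) (by omega) (fun h T => cwLE_named (by omega) h T)
  linarith
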